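import Pool.Agent.H24.Vass2

namespace Pool.Agent.Results.MP_bb7684_lc.Tight

open Pool.Agent.H24.Vass

theorem result (k1 k2 : ℕ) (h1 : 1 ≤ k1) (h2 : 1 ≤ k2) :
    ∃ (A : Type) (_ : Finite A) (V1 V2 : VASS A), V1.Amb k1 ∧ V2.Amb k2 ∧
      ∀ n, 1 ≤ n → n ≤ k1 * k2 - 1 →
        ¬ ∃ V : VASS A, V.Amb n ∧ V.lang = V1.lang ∩ V2.lang := by
  obtain ⟨G, H, cG, cH, hd⟩ : ∃ G H : Finset (Fin k1 ⊕ Fin k2), G.card = k1 ∧ H.card = k2 ∧
      Disjoint G H := ⟨Finset.univ.map Function.Embedding.inl,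
    Finset.univ.map Function.Embedding.inr, by simp, by simp, by simp [Finset.disjoint_left]⟩
  have hG : G.Nonempty := Finset.card_pos.1 (by omega)
  have hH : H.Nonempty := Finset.card_pos.1 (by omega)
  have a1 := gv_amb hG
  have a2 := gv_amb hH
  rw [cG] at a1
  rw [cH] at a2
  refine ⟨(Fin k1 ⊕ Fin k2) × Bool, inferInstance, gv G, gv H, a1, a2, ?_⟩
  rintro n a b ⟨V, hn, hV⟩
  have := lower hG hH hd V hV hn
  rw [cG, cH] at this
  omega

end Pool.Agent.Results.MP_bb7684_lc.Tight
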